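import Pool.Agent.Helper68.ES.St3

/-!
# Project ES (MP_cb927e_an), module LAY: layered sets
-/

set_option autoImplicit false

open MeasureTheory Set Filter Topology
open scoped ENNReal RealInnerProductSpace

namespace Pool.Agent.Helper98.ES

open Pool.Agent.Helper68.ES Pool.Agent.Helper68.EP Pool.Agent.Helper20.RG
open Pool.Agent.Helper20.RL (RQ Rich BM Fml Hit)
open Pool.Agent.Helper68.LM (Pl BB Bd Av HL ft fm DQ)

private lemma ediv_eq {g : ℕ} (hg : 1 ≤ g) (x l : ℤ) :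
    x / (g : ℤ) = l ↔ x ≤ (l + 1) * g - 1 ∧ ¬ x ≤ l * g - 1 := by
  have hg0 : (0 : ℤ) < g := by exact_mod_cast hg
  constructor
  · intro h
    have h1 : x < (l + 1) * g := (Int.ediv_lt_iff_lt_mul hg0).1 (by omega)
    have h2 : l * g ≤ x := (Int.le_ediv_iff_mul_le hg0).1 (by omega)
    omega
  · rintro ⟨h1, h2⟩
    have h3 : x / (g : ℤ) < l + 1 := (Int.ediv_lt_iff_lt_mul hg0).2 (by omega)
    have h4 : l ≤ x / (g : ℤ) := (Int.le_ediv_iff_mul_le hg0).2 (by omega)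
    omega

private lemma ediv_le {g : ℕ} (hg : 1 ≤ g) (x l : ℤ) :
    x / (g : ℤ) ≤ l ↔ x ≤ (l + 1) * g - 1 := by
  have hg0 : (0 : ℤ) < g := by exact_mod_cast hg
  constructor
  · intro h
    have h1 : x < (l + 1) * g := (Int.ediv_lt_iff_lt_mul hg0).1 (by omega)
    omega
  · intro h1
    have h3 : x / (g : ℤ) < l + 1 := (Int.ediv_lt_iff_lt_mul hg0).2 (by omega)
    omega

private lemma ly_meas {H : Set Pl} {D' : ℝ} {κ : Pl → ℤ} (hK : Kap H D' κ) {g : ℕ} (hg : 1 ≤ g)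
    (l : ℤ) : MeasurableSet (Ly H κ g l) := by
  have h : Ly H κ g l = {z | z ∈ H ∧ κ z ≤ (l + 1) * g - 1} \ {z | z ∈ H ∧ κ z ≤ l * g - 1} := by
    ext z
    simp only [Ly, mem_setOf_eq, mem_diff, ediv_eq hg]
    tauto
  rw [h]
  exact (hK.1 _).diff (hK.1 _)

/-- a dyadic square with given index -/
private def Sn (b : ℤ) (n : ℤ × ℤ) : Set Pl :=
  {y | ⌊y 0 / (2 : ℝ) ^ b⌋ = n.1 ∧ ⌊y 1 / (2 : ℝ) ^ b⌋ = n.2}

private noncomputable def ix (b : ℤ) (z : Pl) : ℤ × ℤ := (⌊z 0 / (2 : ℝ) ^ b⌋, ⌊z 1 / (2 : ℝ) ^ b⌋)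

private lemma mem_DQ {b : ℤ} {y z : Pl} :
    y ∈ DQ b z ↔ ⌊y 0 / (2 : ℝ) ^ b⌋ = ⌊z 0 / (2 : ℝ) ^ b⌋ ∧
      ⌊y 1 / (2 : ℝ) ^ b⌋ = ⌊z 1 / (2 : ℝ) ^ b⌋ := by
  simp only [DQ, mem_setOf_eq, Fin.forall_fin_two]

private lemma Sn_ix (b : ℤ) (z : Pl) : Sn b (ix b z) = DQ b z := by
  ext y
  rw [mem_DQ]
  rfl

private lemma mem_Sn {b : ℤ} {n : ℤ × ℤ} {y : Pl} : y ∈ Sn b n ↔ n = ix b y := by
  constructor
  · rintro ⟨h1, h2⟩
    exact Prod.ext h1.symm h2.symm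
  · rintro rfl
    exact ⟨rfl, rfl⟩

private lemma sn_eq_DQ {b : ℤ} {n : ℤ × ℤ} {y : Pl} (hy : y ∈ Sn b n) : Sn b n = DQ b y := by
  rw [mem_Sn.1 hy, Sn_ix]

theorem hLAY (hLGR : Pool.Agent.Helper20.RL.StLGR) (hEQ : Pool.Agent.Helper68.EP.StEQ) :
    Pool.Agent.Helper68.ES.StLAY := by
  intro H κ g D' d₀ hH hK hg hD' hd₀
  obtain ⟨-, -, -, -, lgr5⟩ := hLGR
  obtain ⟨eq1, -, eq3, -, -, eq6⟩ := hEQ
  have hg0 : (0 : ℤ) < g := by exact_mod_cast hg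
  have hSub : Ns H κ g d₀ ⊆ H := fun z hz => hz.1
  have hRz : ∀ z l, κ z / (g : ℤ) = l → Rz κ g z = (l + 3) * g := by
    intro z l h
    unfold Rz
    rw [h]
  have hNM : MeasurableSet (Ns H κ g d₀) := by
    have h : Ns H κ g d₀ = ⋃ l : ℤ, (Ly H κ g l ∩
        {z | ENNReal.ofReal (d₀ * (4 : ℝ) ^ ((l + 3) * (g : ℤ))) <
          volume (Ly H κ g l ∩ DQ ((l + 3) * g) z)}) := by
      ext z
      simp only [mem_iUnion, mem_inter_iff, mem_setOf_eq, Ns]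
      constructor
      · rintro ⟨h1, h2⟩
        exact ⟨κ z / (g : ℤ), ⟨h1, rfl⟩, h2⟩
      · rintro ⟨l, ⟨h1, h2⟩, h3⟩
        refine ⟨h1, ?_⟩
        rw [hRz z l h2, h2]
        exact h3
    rw [h]
    refine MeasurableSet.iUnion fun l => (ly_meas hK hg l).inter ?_
    exact measurableSet_lt measurable_const (eq6 (Ly H κ g l) ((l + 3) * g)).2
  have hB : ∀ z ∈ Ns H κ g d₀, Ly H κ g (κ z / (g : ℤ)) ∩ DQ (Rz κ g z) z ⊆ Ns H κ g d₀ ∧
      ENNReal.ofReal (d₀ * (4 : ℝ) ^ (Rz κ g z)) <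
        volume (Ly (Ns H κ g d₀) κ g (κ z / (g : ℤ)) ∩ DQ (Rz κ g z) z) := by
    intro z hz
    have h1 : Ly H κ g (κ z / (g : ℤ)) ∩ DQ (Rz κ g z) z ⊆ Ns H κ g d₀ := by
      rintro z' ⟨hz'1, hz'2⟩
      refine ⟨hz'1.1, ?_⟩
      have e1 : κ z' / (g : ℤ) = κ z / (g : ℤ) := hz'1.2
      have e2 : Rz κ g z' = Rz κ g z := by
        unfold Rz
        rw [e1]
      have e3 : DQ (Rz κ g z) z' = DQ (Rz κ g z) z := (eq3 _ _ z z' le_rfl hz'2).2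
      rw [e1, e2, e3]
      exact hz.2
    refine ⟨h1, lt_of_lt_of_le hz.2 (measure_mono ?_)⟩
    rintro z' hz'
    exact ⟨⟨h1 hz', hz'.1.2⟩, hz'.2⟩
  refine ⟨⟨⟨hNM, hH.2.subset hSub⟩, hSub, ?_⟩, hB, ?_⟩
  · intro b
    have h : {z | z ∈ Ns H κ g d₀ ∧ κ z ≤ b} = Ns H κ g d₀ ∩ {z | z ∈ H ∧ κ z ≤ b} := by
      ext z
      simp only [mem_setOf_eq, mem_inter_iff]
      exact ⟨fun h => ⟨h.1, hSub h.1, h.2⟩, fun h => ⟨h.1, h.2.2⟩⟩
    rw [h]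
    exact hNM.inter (hK.1 b)
  intro l
  set H' : Set Pl := Ns H κ g d₀ with hH'
  have hGsub : Gl H H' κ g l ⊆ H := fun z hz => hz.1
  have hGK : ∀ z ∈ Gl H H' κ g l, κ z ≤ (l + 1) * g - 1 := fun z hz => (ediv_le hg _ _).1 hz.2.1
  obtain ⟨b, hb⟩ : ∃ b : ℤ, b = (l + 3) * g := ⟨_, rfl⟩
  have hb1 : (l + 1) * g ≤ b := by rw [hb]; nlinarith
  have hGM : MeasurableSet (Gl H H' κ g l) := by
    have h : Gl H H' κ g l = {z | z ∈ H ∧ κ z ≤ (l + 1) * g - 1} ∩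
        {z' | ∃ z ∈ H', κ z / (g : ℤ) = l ∧ z' ∈ DQ5 b z} := by
      ext z
      simp only [Gl, mem_setOf_eq, mem_inter_iff, ediv_le hg, hb]
      tauto
    rw [h]
    refine (hK.1 _).inter (lgr5 0 b b _ ?_)
    rintro y ⟨z, hz1, hz2, hz3⟩ y' hy'
    rw [← (eq1 b y).2.2.2] at hy'
    obtain ⟨e1, e2⟩ := mem_DQ.1 hy'
    refine ⟨z, hz1, hz2, ?_⟩
    simp only [DQ5, mem_setOf_eq] at hz3 ⊢
    rw [e1, e2]
    exact hz3
  refine ⟨⟨hGM, hH.2.subset hGsub⟩, ?_, ?_⟩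
  · intro z hz b' hb'
    refine le_trans (measure_mono (inter_subset_inter_left _ hGsub)) (hK.2 z hz.1 b' ?_)
    have := hGK z hz
    omega
  -- the measure of `G`
  have hcell : ∀ n : ℤ × ℤ, volume (Gl H H' κ g l ∩ Sn b n) ≤ ENNReal.ofReal (D' * (4 : ℝ) ^ b) := by
    intro n
    by_cases hne : (Gl H H' κ g l ∩ Sn b n).Nonempty
    · obtain ⟨z', hz'1, hz'2⟩ := hne
      rw [sn_eq_DQ hz'2]
      refine le_trans (measure_mono (inter_subset_inter hGsub (eq1 b z').2.2.1)) (hK.2 z' hz'1.1 b ?_)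
      have := hGK z' hz'1
      omega
    · rw [not_nonempty_iff_eq_empty.1 hne, measure_empty]
      exact zero_le
  have hSnM : ∀ n : ℤ × ℤ, MeasurableSet (Sn b n) := by
    intro n
    refine lgr5 0 b b _ ?_
    intro y hy y' hy'
    rw [← (eq1 b y).2.2.2] at hy'
    rw [sn_eq_DQ hy]
    exact hy'
  classical
  -- the neighbours
  let Nb : Finset (ℤ × ℤ) := Finset.Icc (-2 : ℤ) 2 ×ˢ Finset.Icc (-2 : ℤ) 2
  have hNb : Nb.card = 25 := by simp [Nb]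
  let I : Set (ℤ × ℤ) := {n | ∃ z ∈ H', κ z / (g : ℤ) = l ∧ z ∈ Sn b n}
  have hcov : Gl H H' κ g l ⊆ ⋃ n : ℤ × ℤ, ⋃ (_ : n ∈ I), ⋃ d ∈ Nb,
      (Gl H H' κ g l ∩ Sn b (n + d)) := by
    intro z' hz'
    obtain ⟨z, hz1, hz2, hz3⟩ := hz'.2.2
    rw [← hb] at hz3
    simp only [mem_iUnion]
    refine ⟨ix b z, ⟨z, hz1, hz2, mem_Sn.2 rfl⟩, ix b z' - ix b z, ?_, hz', mem_Sn.2 (by abel)⟩
    simp only [DQ5, mem_setOf_eq, abs_le] at hz3
    simp only [Nb, Finset.mem_product, Finset.mem_Icc, ix, Prod.fst_sub, Prod.snd_sub]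
    omega
  have hstep : ∀ n ∈ I, volume (⋃ d ∈ Nb, (Gl H H' κ g l ∩ Sn b (n + d))) ≤
      ENNReal.ofReal (25 * D' / d₀) * volume (Ly H' κ g l ∩ Sn b n) := by
    rintro n ⟨z, hz1, hz2, hz3⟩
    have h1 : volume (⋃ d ∈ Nb, (Gl H H' κ g l ∩ Sn b (n + d))) ≤
        25 * ENNReal.ofReal (D' * (4 : ℝ) ^ b) := by
      refine le_trans (measure_biUnion_finset_le _ _) ?_
      refine le_trans (Finset.sum_le_card_nsmul _ _ _ fun d _ => hcell (n + d)) ?_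
      rw [hNb, nsmul_eq_mul]
      norm_num
    have h2 := (hB z hz1).2
    rw [hRz z l hz2, hz2, ← hb, ← sn_eq_DQ hz3] at h2
    have h3 : 25 * ENNReal.ofReal (D' * (4 : ℝ) ^ b) =
        ENNReal.ofReal (25 * D' / d₀) * ENNReal.ofReal (d₀ * (4 : ℝ) ^ b) := by
      rw [← ENNReal.ofReal_mul (by positivity)]
      have : (25 : ℝ≥0∞) = ENNReal.ofReal 25 := by norm_num
      rw [this, ← ENNReal.ofReal_mul (by norm_num)]
      congr 1
      field_simp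
    rw [h3] at h1
    exact h1.trans (mul_le_mul_right h2.le _)
  calc volume (Gl H H' κ g l)
      ≤ volume (⋃ n : ℤ × ℤ, ⋃ (_ : n ∈ I), ⋃ d ∈ Nb, (Gl H H' κ g l ∩ Sn b (n + d))) :=
        measure_mono hcov
    _ ≤ ∑' n : ℤ × ℤ, volume (⋃ (_ : n ∈ I), ⋃ d ∈ Nb, (Gl H H' κ g l ∩ Sn b (n + d))) :=
        measure_iUnion_le _
    _ ≤ ∑' n : ℤ × ℤ, ENNReal.ofReal (25 * D' / d₀) * volume (Ly H' κ g l ∩ Sn b n) := by
        refine ENNReal.tsum_le_tsum fun n => ?_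
        by_cases hn : n ∈ I
        · simp only [hn, iUnion_true]
          exact hstep n hn
        · simp only [hn, iUnion_false, measure_empty]
          exact zero_le
    _ = ENNReal.ofReal (25 * D' / d₀) * ∑' n : ℤ × ℤ, volume (Ly H' κ g l ∩ Sn b n) :=
        ENNReal.tsum_mul_left
    _ = ENNReal.ofReal (25 * D' / d₀) * volume (⋃ n : ℤ × ℤ, Ly H' κ g l ∩ Sn b n) := by
        rw [measure_iUnion]
        · intro n n' hnn'
          refine Set.disjoint_left.2 ?_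
          rintro y ⟨-, h1⟩ ⟨-, h2⟩
          exact hnn' ((mem_Sn.1 h1).trans (mem_Sn.1 h2).symm)
        · intro n
          refine MeasurableSet.inter ?_ (hSnM n)
          have h : Ly H' κ g l = Ly H κ g l ∩ H' := by
            ext z
            simp only [Ly, mem_setOf_eq, mem_inter_iff]
            exact ⟨fun h => ⟨⟨hSub h.1, h.2⟩, h.1⟩, fun h => ⟨h.2, h.1.2⟩⟩
          rw [h]
          exact (ly_meas hK hg l).inter hNM
    _ ≤ ENNReal.ofReal (25 * D' / d₀) * volume (Ly H' κ g l) := by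
        gcongr
        exact iUnion_subset fun n => inter_subset_left

end Pool.Agent.Helper98.ES
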